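import Pool.Agent.E8helper50.SR.S2

set_option autoImplicit false

universe u v

open scoped TensorProduct

namespace Pool.Agent.E8helper78.SR
open Pool.Agent.E8helper50.SR

section Lin

variable {F : Type u} [Field F] {R : Type v} [NonUnitalRing R] [Module F R]
  [IsScalarTower F R R] [SMulCommClass F R R]

lemma upd_cast_last {n : ℕ} (x : Fin (n + 2) → R) (z : R) :
    (fun i : Fin (n + 1) => Function.update x (Fin.last (n + 1)) z i.castSucc) =
      fun i => x i.castSucc := by
  funext i
  rw [Function.update_of_ne]
  exact (Fin.castSucc_lt_last i).ne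

lemma upd_cast_cast {n : ℕ} (x : Fin (n + 2) → R) (k : Fin (n + 1)) (z : R) :
    (fun i : Fin (n + 1) => Function.update x k.castSucc z i.castSucc) =
      Function.update (fun i => x i.castSucc) k z := by
  funext i
  by_cases h : i = k
  · subst h; simp
  · rw [Function.update_of_ne h, Function.update_of_ne]
    exact fun h' => h (Fin.castSucc_injective _ h')

lemma upd_last_cast {n : ℕ} (x : Fin (n + 2) → R) (k : Fin (n + 1)) (z : R) :
    Function.update x k.castSucc z (Fin.last (n + 1)) = x (Fin.last (n + 1)) := by
  rw [Function.update_of_ne]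
  exact (Fin.castSucc_lt_last k).ne'

lemma wprod_update_add : ∀ (n : ℕ) (x : Fin (n + 1) → R) (k : Fin (n + 1)) (z z' : R),
    wprod n (Function.update x k (z + z')) =
      wprod n (Function.update x k z) + wprod n (Function.update x k z') := by
  intro n
  induction n with
  | zero =>
    intro x k z z'
    obtain rfl : k = 0 := Fin.ext (by have := k.2; simp only [Fin.val_zero]; omega)
    simp [wprod]
  | succ n ih =>
    intro x k z z'
    simp only [wprod]
    refine Fin.lastCases ?_ (fun k => ?_) k
    · simp only [upd_cast_last, Function.update_self, mul_add]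
    · simp only [upd_cast_cast, upd_last_cast, ih, add_mul]

lemma wprod_update_smul : ∀ (n : ℕ) (x : Fin (n + 1) → R) (k : Fin (n + 1)) (c : F) (z : R),
    wprod n (Function.update x k (c • z)) = c • wprod n (Function.update x k z) := by
  intro n
  induction n with
  | zero =>
    intro x k c z
    obtain rfl : k = 0 := Fin.ext (by have := k.2; simp only [Fin.val_zero]; omega)
    simp [wprod]
  | succ n ih =>
    intro x k c z
    simp only [wprod]
    refine Fin.lastCases ?_ (fun k => ?_) k
    · simp only [upd_cast_last, Function.update_self, mul_smul_comm]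
    · simp only [upd_cast_cast, upd_last_cast, ih, smul_mul_assoc]

lemma upd_perm {m : ℕ} (x : Fin m → R) (σ : Equiv.Perm (Fin m)) (k : Fin m) (z : R) :
    (fun i => Function.update x k z (σ i)) = Function.update (fun i => x (σ i)) (σ.symm k) z := by
  funext i
  by_cases h : i = σ.symm k
  · subst h; simp
  · rw [Function.update_of_ne h, Function.update_of_ne]
    rintro rfl
    simp at h

lemma ev_update_add (f : MPoly F) (x : Fin (f.n + 1) → R) (k : Fin (f.n + 1)) (z z' : R) :
    ev f (Function.update x k (z + z')) =
      ev f (Function.update x k z) + ev f (Function.update x k z') := by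
  unfold ev
  rw [← Finset.sum_add_distrib]
  refine Finset.sum_congr rfl fun σ _ => ?_
  rw [upd_perm, upd_perm, upd_perm, wprod_update_add, smul_add]

lemma ev_update_smul (f : MPoly F) (x : Fin (f.n + 1) → R) (k : Fin (f.n + 1)) (c : F) (z : R) :
    ev f (Function.update x k (c • z)) = c • ev f (Function.update x k z) := by
  unfold ev
  rw [Finset.smul_sum]
  refine Finset.sum_congr rfl fun σ _ => ?_
  rw [upd_perm, upd_perm, wprod_update_smul, smul_comm]

/-- vanishing on the generators of a submodule implies vanishing on the submodule -/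
lemma ev_span (f : MPoly F) (G : Set R)
    (h : ∀ u : Fin (f.n + 1) → R, (∀ i, u i ∈ G) → ev f u = 0)
    (u : Fin (f.n + 1) → R) (hu : ∀ i, u i ∈ Submodule.span F G) : ev f u = 0 := by
  have key : ∀ (E : Finset (Fin (f.n + 1))) (u : Fin (f.n + 1) → R),
      (∀ i ∈ E, u i ∈ Submodule.span F G) → (∀ i, i ∉ E → u i ∈ G) → ev f u = 0 := by
    intro E
    induction E using Finset.induction_on with
    | empty =>
      intro u _ h2
      exact h u fun i => h2 i (by simp)
    | insert j E hj ih =>
      intro u h1 h2
      have h3 : ∀ z ∈ Submodule.span F G, ev f (Function.update u j z) = 0 := by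
        intro z hz
        induction hz using Submodule.span_induction with
        | mem z hz =>
          apply ih
          · intro i hi
            have hij : i ≠ j := by rintro rfl; exact hj hi
            rw [Function.update_of_ne hij]
            exact h1 i (Finset.mem_insert_of_mem hi)
          · intro i hi
            by_cases hij : i = j
            · subst hij; simpa using hz
            · rw [Function.update_of_ne hij]
              exact h2 i (by simp [hij, hi])
        | zero =>
          have := ev_update_smul f u j (0 : F) (0 : R)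
          simpa using this
        | add z z' _ _ e1 e2 => rw [ev_update_add, e1, e2, add_zero]
        | smul c z _ e1 => rw [ev_update_smul, e1, smul_zero]
      have := h3 (u j) (h1 j (Finset.mem_insert_self _ _))
      simpa using this
  exact key Finset.univ u (fun i _ => hu i) (fun i hi => absurd (Finset.mem_univ i) hi)

end Lin

section Ten

variable {F : Type u} [Field F] (A : SAlg F)

lemma wprod_tmul (n : ℕ) (g : Fin (n + 1) → Gr F) (a : Fin (n + 1) → A) :
    wprod n (fun i => g i ⊗ₜ[F] a i) = wprod n g ⊗ₜ[F] wprod n a := by
  induction n with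
  | zero => rfl
  | succ n ih =>
    simp only [wprod]
    rw [ih, Algebra.TensorProduct.tmul_mul_tmul]

lemma ev_tmul (hS : S_GRS.{u}) (f : MPoly F) (p : Fin (f.n + 1) → ZMod 2)
    (g : Fin (f.n + 1) → Gr F) (a : Fin (f.n + 1) → A) (hg : ∀ i, g i ∈ GrPart F (p i)) :
    ev f (fun i => g i ⊗ₜ[F] a i) = wprod f.n g ⊗ₜ[F] sev f p a := by
  unfold ev sev
  rw [TensorProduct.tmul_sum]
  refine Finset.sum_congr rfl fun σ _ => ?_
  rw [wprod_tmul A f.n (fun i => g (σ i)) (fun i => a (σ i)), hS F f.n p g σ hg,
    ← Int.cast_smul_eq_zsmul F, TensorProduct.tmul_smul, mul_smul, ← TensorProduct.smul_tmul']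

theorem t_GRA : S_GRS.{u} → S_GRN.{u} → S_GRA.{u} := by
  intro hS hN F _ A f
  constructor
  · intro h p a ha
    obtain ⟨g, hg, hne⟩ := hN F f.n p
    have h0 : ev f (fun i => g i ⊗ₜ[F] a i) = 0 := by
      apply h
      intro i
      exact Submodule.subset_span ⟨p i, g i, a i, hg i, ha i, rfl⟩
    rw [ev_tmul A hS f p g a hg] at h0
    have hφ : ∃ φ : Module.Dual F (Gr F), φ (wprod f.n g) ≠ 0 := by
      by_contra hc
      push Not at hc
      exact hne ((Module.forall_dual_apply_eq_zero_iff F _).1 hc)
    obtain ⟨φ, hφ⟩ := hφ
    have h1 := congrArg (fun t => TensorProduct.lid F A (LinearMap.rTensor A φ t)) h0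
    simp only [LinearMap.rTensor_tmul, TensorProduct.lid_tmul, map_zero] at h1
    exact (smul_eq_zero.1 h1).resolve_left hφ
  · intro h u hu
    refine ev_span f _ ?_ u hu
    intro u hu
    choose p g a hg ha hu using hu
    obtain rfl : u = fun i => g i ⊗ₜ[F] a i := funext hu
    rw [ev_tmul A hS f p g a hg, h p a ha, TensorProduct.tmul_zero]

end Ten

end Pool.Agent.E8helper78.SR
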