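import Pool.Agent.E8helper50.SR.S2

set_option autoImplicit false

universe u v

open scoped TensorProduct

namespace Pool.Agent.E8helper78.SR
open Pool.Agent.E8helper50.SR

/-- supercommutation -/
lemma gr_comm {F : Type u} [Field F] {p q : ZMod 2} {g h : Gr F} (hg : g ∈ GrPart F p)
    (hh : h ∈ GrPart F q) :
    g * h = (if p = 1 ∧ q = 1 then (-1 : ℤ) else 1) • (h * g) := by
  have key := CliffordAlgebra.map_mul_map_of_isOrtho_of_mem_evenOdd
    (QuadraticMap.Isometry.id (0 : QuadraticForm F (ℕ →₀ F)))
    (QuadraticMap.Isometry.id (0 : QuadraticForm F (ℕ →₀ F)))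
    (fun x y => by simp [QuadraticMap.IsOrtho]) g h hg hh
  rw [CliffordAlgebra.map_id] at key
  simp only [AlgHom.id_apply] at key
  have h2 : ∀ x : ZMod 2, x = 0 ∨ x = 1 := by decide
  rcases h2 p with rfl | rfl <;> rcases h2 q with rfl | rfl
  · simpa using key
  · simpa using key
  · simpa using key
  · simpa using key

variable {N : ℕ}

/-- sign of a pair of letters -/
def s1 (p : Fin N → ZMod 2) (a b : Fin N) : ℤ := if b < a ∧ p a = 1 ∧ p b = 1 then -1 else 1

/-- sign of a word -/
def lsgn (p : Fin N → ZMod 2) : List (Fin N) → ℤ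
  | [] => 1
  | a :: L => (L.map (s1 p a)).prod * lsgn p L

lemma insert_lemma {F : Type u} [Field F] (p : Fin N → ZMod 2) (g : Fin N → Gr F)
    (hg : ∀ i, g i ∈ GrPart F (p i)) (a : Fin N) (L : List (Fin N)) (hL : L.Pairwise (· ≤ ·)) :
    g a * (L.map g).prod = (L.map (s1 p a)).prod • ((L.orderedInsert (· ≤ ·) a).map g).prod := by
  induction L with
  | nil => simp
  | cons b L ih =>
    rw [List.pairwise_cons] at hL
    by_cases hab : a ≤ b
    · have h1 : ((b :: L).map (s1 p a)).prod = 1 := by
        apply List.prod_eq_one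
        intro x hx
        rw [List.mem_map] at hx
        obtain ⟨c, hc, rfl⟩ := hx
        have hac : a ≤ c := by
          rcases List.mem_cons.1 hc with rfl | hc
          · exact hab
          · exact hab.trans (hL.1 c hc)
        simp [s1, not_lt.2 hac]
      rw [h1, one_smul, List.orderedInsert_cons, if_pos hab]
      simp
    · rw [List.orderedInsert_cons, if_neg hab]
      have hba : b < a := not_le.1 hab
      simp only [List.map_cons, List.prod_cons]
      rw [← mul_assoc, gr_comm (hg a) (hg b), smul_mul_assoc, mul_assoc, ih hL.2,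
        mul_smul_comm, smul_smul]
      congr 2
      simp [s1, hba]

lemma sort_lemma {F : Type u} [Field F] (p : Fin N → ZMod 2) (g : Fin N → Gr F)
    (hg : ∀ i, g i ∈ GrPart F (p i)) (L : List (Fin N)) :
    (L.map g).prod = lsgn p L • ((L.insertionSort (· ≤ ·)).map g).prod := by
  induction L with
  | nil => simp [lsgn]
  | cons a L ih =>
    rw [List.insertionSort_cons, List.map_cons, List.prod_cons, ih, mul_smul_comm,
      insert_lemma p g hg a _ (List.pairwise_insertionSort _ _), smul_smul]
    congr 1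
    rw [lsgn, mul_comm]
    congr 1
    exact (List.Perm.map _ (List.perm_insertionSort _ L)).prod_eq

/-- Koszul sign of a word given by a function -/
def kw {m : ℕ} (p : Fin N → ZMod 2) (w : Fin m → Fin N) : ℤ :=
  ∏ i : Fin m, ∏ j : Fin m, if i < j ∧ w j < w i ∧ p (w i) = 1 ∧ p (w j) = 1 then -1 else 1

lemma kw_succ {m : ℕ} (p : Fin N → ZMod 2) (w : Fin (m + 1) → Fin N) :
    kw p w = (∏ j : Fin m, s1 p (w 0) (w j.succ)) * kw p (fun i => w i.succ) := by
  unfold kw
  rw [Fin.prod_univ_succ]
  congr 1
  · rw [Fin.prod_univ_succ]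
    simp [s1]
  · refine Finset.prod_congr rfl fun i _ => ?_
    rw [Fin.prod_univ_succ]
    simp

lemma lsgn_ofFn {m : ℕ} (p : Fin N → ZMod 2) (w : Fin m → Fin N) :
    lsgn p (List.ofFn w) = kw p w := by
  induction m with
  | zero => simp [lsgn, kw]
  | succ m ih =>
    rw [List.ofFn_succ, lsgn, ih, kw_succ, List.map_ofFn, List.prod_ofFn]
    rfl

lemma wprod_eq {R : Type v} [Monoid R] (n : ℕ) (x : Fin (n + 1) → R) :
    wprod n x = (List.ofFn x).prod := by
  induction n with
  | zero => simp [wprod]
  | succ n ih =>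
    rw [wprod, ih]
    conv_rhs => rw [List.ofFn_succ', List.prod_concat]

theorem t_GRS : S_GRS.{u} := by
  intro F _ n p g σ hg
  rw [wprod_eq, wprod_eq]
  have e1 : List.ofFn (fun i => g (σ i)) = (List.ofFn σ).map g := by
    rw [List.map_ofFn]; rfl
  have e2 : List.ofFn g = (List.ofFn (fun i : Fin (n + 1) => i)).map g := by
    rw [List.map_ofFn]; rfl
  rw [e1, e2, sort_lemma p g hg, sort_lemma p g hg (List.ofFn fun i => i), lsgn_ofFn, lsgn_ofFn]
  have e3 : kw p (fun i : Fin (n + 1) => i) = 1 := by
    unfold kw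
    apply Finset.prod_eq_one
    intro i _
    apply Finset.prod_eq_one
    intro j _
    rw [if_neg]
    rintro ⟨h1, h2, -⟩
    exact absurd h1 (not_lt.2 h2.le)
  rw [e3, one_smul]
  have e4 : (List.ofFn σ).insertionSort (· ≤ ·) =
      (List.ofFn (fun i : Fin (n + 1) => i)).insertionSort (· ≤ ·) := by
    apply List.Perm.eq_of_pairwise' (r := (· ≤ ·)) (List.pairwise_insertionSort _ _)
      (List.pairwise_insertionSort _ _)
    refine (List.perm_insertionSort _ _).trans (List.Perm.trans ?_ (List.perm_insertionSort _ _).symm)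
    exact Equiv.Perm.ofFn_comp_perm σ (fun i : Fin (n + 1) => i)
  rw [e4]
  rfl

end Pool.Agent.E8helper78.SR
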