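import Pool.Agent.E8helper50.SR.S

set_option autoImplicit false

namespace Pool.Agent.E8helper78.SR
open Pool.Agent.E8helper50.SR

/-- reindexing by letters -/
lemma ksgn_letters {n : ℕ} (p : Fin n → ZMod 2) (σ : Equiv.Perm (Fin n)) :
    ksgn p σ = ∏ a : Fin n, ∏ b : Fin n,
      if σ.symm a < σ.symm b ∧ b < a ∧ p a = 1 ∧ p b = 1 then (-1 : ℤ) else 1 := by
  unfold ksgn
  conv_rhs => rw [← Equiv.prod_comp σ]
  refine Finset.prod_congr rfl fun i _ => ?_
  conv_rhs => rw [← Equiv.prod_comp σ]
  refine Finset.prod_congr rfl fun j _ => ?_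
  simp only [Equiv.symm_apply_apply]

theorem t_KSG : S_KSG := by
  intro n p j σ hj
  have h01 : (0 : ZMod 2) ≠ 1 := by decide
  rw [ksgn_letters, ksgn_letters]
  have key : ∀ a b : Fin n,
      (if σ.symm a < σ.symm b ∧ b < a ∧ Function.update p j 1 a = 1 ∧
          Function.update p j 1 b = 1 then (-1 : ℤ) else 1) =
        (if σ.symm a < σ.symm b ∧ b < a ∧ p a = 1 ∧ p b = 1 then (-1 : ℤ) else 1) *
        ((if a = j then (if σ.symm j < σ.symm b ∧ b < j ∧ p b = 1 then (-1 : ℤ) else 1) else 1) *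
        (if b = j then (if σ.symm a < σ.symm j ∧ j < a ∧ p a = 1 then (-1 : ℤ) else 1) else 1)) := by
    intro a b
    by_cases ha : a = j
    · subst ha
      by_cases hb : b = a
      · subst hb
        simp
      · simp [Function.update_of_ne hb, hb, hj]
    · by_cases hb : b = j
      · subst hb
        simp [Function.update_of_ne ha, ha, hj]
      · simp [Function.update_of_ne ha, Function.update_of_ne hb, ha, hb]
  simp only [key, Finset.prod_mul_distrib]
  have e1 : ∏ a : Fin n, ∏ b : Fin n,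
      (if a = j then (if σ.symm j < σ.symm b ∧ b < j ∧ p b = 1 then (-1 : ℤ) else 1) else 1) =
      ∏ b : Fin n, (if σ.symm j < σ.symm b ∧ b < j ∧ p b = 1 then (-1 : ℤ) else 1) := by
    rw [Finset.prod_comm]
    refine Finset.prod_congr rfl fun b _ => ?_
    rw [Finset.prod_ite_eq' Finset.univ j]
    simp
  have e2 : ∏ a : Fin n, ∏ b : Fin n,
      (if b = j then (if σ.symm a < σ.symm j ∧ j < a ∧ p a = 1 then (-1 : ℤ) else 1) else 1) =
      ∏ a : Fin n, (if σ.symm a < σ.symm j ∧ j < a ∧ p a = 1 then (-1 : ℤ) else 1) := by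
    refine Finset.prod_congr rfl fun a _ => ?_
    rw [Finset.prod_ite_eq' Finset.univ j]
    simp
  rw [e1, e2, mul_assoc, mul_assoc]
  congr 1
  rw [← Finset.prod_mul_distrib, ← Finset.prod_mul_distrib]
  refine Finset.prod_congr rfl fun i _ => ?_
  by_cases hp : p i = 1
  · have hij : i ≠ j := by
      rintro rfl
      rw [hj] at hp
      exact h01 hp
    have hs : σ.symm i ≠ σ.symm j := fun h => hij (σ.symm.injective h)
    rcases lt_or_gt_of_ne hij with h1 | h1 <;> rcases lt_or_gt_of_ne hs with h2 | h2 <;>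
      simp [hp, h1, h2, h1.le, h2.le, not_lt.2 h1.le, not_lt.2 h2.le]
  · simp [hp]

end Pool.Agent.E8helper78.SR
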